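import Pool.Agent.H95.GW.Calc
import Pool.Agent.H95.GW.Graph
import Pool.Agent.H95.GW.Sat

/-!
MP_f9c44b_gt, Q1: the genus-zero Gromov-Witten invariants of the projective bundle
`X = P(O + O(-1)³)` over the projective line (complex dimension `n = 4`) do not admit a
decomposition (E1) with integer-valued functionals: the invariant of the primitive class
`2 B + f` with one point insertion is `1/4`, and the sum in (E1) for this class is empty.
-/

set_option autoImplicit false

namespace Pool.Agent.Results.MP_f9c44b_gt.NoIntegerDecomposition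

open Pool.Agent.H95.GW

/-- Numbers with the properties `GenusZero` exist. Let `GW g A μ` be rational numbers whose
genus-zero part has these properties (the standard properties of the Gromov-Witten invariants of
`X`), and let `𝒜` contain `(g, A)` whenever `A ≠ 0` and `GW g A` is not identically zero. Then
`GW 0 (2B + f) (pt) = 1/4`, the pair `(0, 2B + f)` is in `𝒜`, the sum in (E1) for it extends over
the empty set, and (E1) with `n = 4` holds for no integer-valued `E` (whatever the other terms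
are). -/
theorem result :
    (∃ N : ℤ × ℤ → Multiset Idx → ℚ, GenusZero N) ∧
    ∀ (𝒜 : Set (ℕ × (ℤ × ℤ))) (GW : ℕ → ℤ × ℤ → Multiset Idx → ℚ),
      (∀ g A, A ≠ 0 → GW g A ≠ 0 → (g, A) ∈ 𝒜) → GenusZero (GW 0) →
      GW 0 (2, 1) {ePt} = 1 / 4 ∧ (0, (2, 1)) ∈ 𝒜 ∧ Pst 4 𝒜 0 ((2, 1) : ℤ × ℤ) = ∅ ∧
      ¬ ∃ (E : ℕ → ℤ × ℤ → Multiset Idx → ℤ)
          (EG : ℕ → (Σ G : DecGraph (ℤ × ℤ), Fin G.nV → ℕ) → Multiset Idx → ℚ),
          E1 4 𝒜 GW E EG := by
  refine ⟨⟨N0, genusZero_N0⟩, fun 𝒜 GW h𝒜 hGW => ?_⟩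
  have hq := hGW.quarter
  have hA : ((0 : ℕ), ((2, 1) : ℤ × ℤ)) ∈ 𝒜 := by
    refine h𝒜 0 (2, 1) (by decide) fun h0 => ?_
    rw [h0] at hq
    norm_num at hq
  have hemp : Pst 4 𝒜 0 ((2, 1) : ℤ × ℤ) = ∅ := by
    refine Pst_empty 4 𝒜 (2, 1) fun m A' hm hpos => ?_
    have h2 : (m : ℤ) * A'.2 = 1 := by
      have := congrArg Prod.snd hm
      simpa using this
    have h3 : (m : ℤ) = 1 := by
      rcases Int.mul_eq_one_iff_eq_one_or_neg_one.1 h2 with h | h
      · exact h.1
      · omega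
    exact_mod_cast h3
  refine ⟨hq, hA, hemp, ?_⟩
  rintro ⟨E, EG, hE⟩
  have h1 := hE 0 (2, 1) hA {ePt} (by simp)
  rw [hemp, hq] at h1
  simp only [Set.mem_empty_iff_false, finsum_false, finsum_zero, add_zero] at h1
  have h4 : (4 * E 0 (2, 1) {ePt} : ℚ) = 1 := by rw [← h1]; norm_num
  have h5 : 4 * E 0 (2, 1) {ePt} = 1 := by exact_mod_cast h4
  omega

end Pool.Agent.Results.MP_f9c44b_gt.NoIntegerDecomposition
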